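import Pool.Agent.Q150.BalDimA

/-!
# Dual balanced configurations may have different dimensions
-/

namespace Pool.Agent.Results.MP_d6bd81_co.DualDimension

open Q150.BalDim

/-- For every `k ≥ 4` there is a balanced configuration `(n_k)` such that it and its dual both
have geometric realizations and their dimensions are different: the dual has dimension at most
`k (k - 1) + 1`, which is smaller than `2 ^ k - 1`, and the configuration has dimension at least
`2 ^ k - 1`. -/
theorem result (k : ℕ) (hk : 4 ≤ k) : ∃ (P L : Type) (I : P → L → Prop),
    IsConfiguration I k k ∧ Nat.card P = Nat.card L ∧ HasRealization I ∧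
      HasRealization (dual I) ∧ dim (dual I) ≤ k * (k - 1) + 1 ∧
      k * (k - 1) + 1 < 2 ^ k - 1 ∧ 2 ^ k - 1 ≤ dim I :=
  main k hk

end Pool.Agent.Results.MP_d6bd81_co.DualDimension
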